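import Mathlib

/-!
# Lipschitz regularisation of an equivariant family of Hölder functions
-/

namespace Pool.Agent.X196.EL

/-- The infimal convolution. -/
noncomputable def rg {S : Type} [MetricSpace S] (f : S → ℝ) (t : ℝ) (u : S) : ℝ :=
  ⨅ u' : S, (f u' + dist u u' / t)

variable {S : Type} [MetricSpace S]

theorem rg_bdd (f : S → ℝ) (t : ℝ) (ht : 0 < t) (h0 : ∀ u, 0 ≤ f u) (u : S) :
    BddBelow (Set.range (fun u' : S => f u' + dist u u' / t)) := by
  refine ⟨0, ?_⟩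
  rintro _ ⟨u', rfl⟩
  have : 0 ≤ dist u u' / t := by positivity
  have := h0 u'
  simp only
  linarith

theorem rg_nonneg (f : S → ℝ) (t : ℝ) (ht : 0 < t) (h0 : ∀ u, 0 ≤ f u) (u : S) : 0 ≤ rg f t u := by
  have : Nonempty S := ⟨u⟩
  refine le_ciInf fun u' => ?_
  have : 0 ≤ dist u u' / t := by positivity
  have := h0 u'
  linarith

theorem rg_le (f : S → ℝ) (t : ℝ) (ht : 0 < t) (h0 : ∀ u, 0 ≤ f u) (u : S) : rg f t u ≤ f u := by
  have := ciInf_le (rg_bdd f t ht h0 u) u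
  simpa [rg] using this

theorem rg_lip1 (f : S → ℝ) (t : ℝ) (ht : 0 < t) (h0 : ∀ u, 0 ≤ f u) (u v : S) :
    rg f t u ≤ rg f t v + dist u v / t := by
  have : Nonempty S := ⟨u⟩
  rw [← sub_le_iff_le_add]
  refine le_ciInf fun u' => ?_
  have h := ciInf_le (rg_bdd f t ht h0 u) u'
  have h2 : dist u u' / t ≤ dist u v / t + dist v u' / t := by
    rw [← add_div]
    exact div_le_div_of_nonneg_right (dist_triangle u v u') ht.le
  simp only [rg] at h ⊢
  linarith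

theorem rg_close (f : S → ℝ) (t H : ℝ) (hH0 : 0 ≤ H) (ht : 0 < t) (_h0 : ∀ u, 0 ≤ f u)
    (hH : ∀ u v, |f u - f v| ^ 2 ≤ H * dist u v) (u : S) : f u - H * t ≤ rg f t u := by
  have : Nonempty S := ⟨u⟩
  refine le_ciInf fun u' => ?_
  have h := hH u u'
  rw [sq_abs] at h
  -- `f u - f u' ≤ H t + d / t`
  by_contra hc
  push Not at hc
  set d := dist u u' with hd
  have hd0 : 0 ≤ d := dist_nonneg
  have hdt : 0 ≤ d / t := by positivity
  have e : d = t * (d / t) := by field_simp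
  have hx : 0 ≤ H * t := by positivity
  have h1 : H * t + d / t < f u - f u' := by linarith
  have h2 : (H * t + d / t) ^ 2 < (f u - f u') ^ 2 :=
    pow_lt_pow_left₀ h1 (by positivity) (by norm_num)
  have h3 : H * d = (H * t) * (d / t) := by field_simp
  nlinarith [mul_nonneg hx hdt, sq_nonneg (H * t), sq_nonneg (d / t)]

/-- Regularisation: the infimal convolution of an equivariant family. -/
theorem reg (act : Equiv.Perm ℕ → S → S)
    (hi : ∀ π, Isometry (act π)) (hs : ∀ π, Function.Surjective (act π))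
    (ψ : Set ℕ → S → ℝ) (H : ℝ) (hH0 : 0 ≤ H) (h01 : ∀ A u, 0 ≤ ψ A u ∧ ψ A u ≤ 1)
    (hH : ∀ A u v, |ψ A u - ψ A v| ^ 2 ≤ H * dist u v)
    (he : ∀ (π : Equiv.Perm ℕ) A u, ψ A (act π u) = ψ (π ⁻¹' A) u) (t : ℝ) (ht : 0 < t) :
    ∃ ψ' : Set ℕ → S → ℝ, (∀ A u, 0 ≤ ψ' A u ∧ ψ' A u ≤ 1) ∧
      (∀ A u, |ψ' A u - ψ A u| ≤ H * t) ∧
      (∀ A u v, |ψ' A u - ψ' A v| ≤ dist u v / t) ∧
      (∀ (π : Equiv.Perm ℕ) A u, ψ' A (act π u) = ψ' (π ⁻¹' A) u) := by
  refine ⟨fun A => rg (ψ A) t, fun A u => ⟨rg_nonneg _ t ht (fun v => (h01 A v).1) u,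
    (rg_le _ t ht (fun v => (h01 A v).1) u).trans (h01 A u).2⟩, fun A u => ?_, fun A u v => ?_,
    fun π A u => ?_⟩
  · have h1 := rg_le (ψ A) t ht (fun v => (h01 A v).1) u
    have h2 := rg_close (ψ A) t H hH0 ht (fun v => (h01 A v).1) (hH A) u
    rw [abs_le]
    constructor <;> linarith
  · have h1 := rg_lip1 (ψ A) t ht (fun v => (h01 A v).1) u v
    have h2 := rg_lip1 (ψ A) t ht (fun v => (h01 A v).1) v u
    rw [dist_comm v u] at h2
    rw [abs_le]
    constructor <;> linarith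
  · show (⨅ u' : S, (ψ A u' + dist (act π u) u' / t)) = ⨅ u' : S, (ψ (π ⁻¹' A) u' + dist u u' / t)
    rw [← (hs π).iInf_comp]
    refine iInf_congr fun u' => ?_
    rw [he, (hi π).dist_eq]

end Pool.Agent.X196.EL
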